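import Pool.Agent.H85.BC.Basic
import Pool.Agent.H85.BC.Targets

/-!
# bcg_modules, WU: the uniform form (helper5)
-/

set_option autoImplicit false

open scoped InnerProductSpace Topology
open Filter

namespace Pool.Agent.H5.BCG

open Pool.Agent.H85.BC

variable {H : Type} [NormedAddCommGroup H] [InnerProductSpace ℂ H] [CompleteSpace H]

/-- the commutator with a product -/
theorem comm_mul_star {N : VonNeumannAlgebra H} {ξ : H} (h : IsTraceVector N ξ) {B δ : ℝ}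
    {g x y : H →L[ℂ] H} (hg : g ∈ N) (hx : x ∈ N) (hy : y ∈ N) (hxB : ‖x‖ ≤ B) (hyB : ‖y‖ ≤ B)
    (h1 : ‖(x * g - g * x) ξ‖ ≤ δ) (h2 : ‖(y * star g - star g * y) ξ‖ ≤ δ) :
    ‖(g * (x * star y) - (x * star y) * g) ξ‖ ≤ 2 * B * δ := by
  have e1 : g * (x * star y) - (x * star y) * g =
      -((x * g - g * x) * star y) - x * (star y * g - g * star y) := by noncomm_ring
  have hB : 0 ≤ B := (norm_nonneg _).trans hxB
  have hδ : 0 ≤ δ := (norm_nonneg _).trans h1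
  have e2 : ‖((x * g - g * x) * star y) ξ‖ ≤ B * δ := by
    refine (h.norm_mul_right (sub_mem (mul_mem hx hg) (mul_mem hg hx)) (star_mem' N hy)).trans ?_
    rw [norm_star]
    exact mul_le_mul hyB h1 (norm_nonneg _) hB
  have e3 : ‖(x * (star y * g - g * star y)) ξ‖ ≤ B * δ := by
    refine (norm_mul_left ξ x _).trans ?_
    have e4 : ‖(star y * g - g * star y) ξ‖ ≤ δ := by
      rw [h.norm_comm_star hy hg]
      exact h2
    exact mul_le_mul hxB e4 (norm_nonneg _) hB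
  rw [e1]
  have e5 : (-((x * g - g * x) * star y) - x * (star y * g - g * star y)) ξ =
      -(((x * g - g * x) * star y) ξ) - (x * (star y * g - g * star y)) ξ := rfl
  rw [e5]
  refine (norm_sub_le _ _).trans ?_
  rw [norm_neg]
  linarith

/-- one term of the commutator -/
theorem term_bound {N : VonNeumannAlgebra H} {ξ : H} (h : IsTraceVector N ξ) {K : ℝ}
    {a b w : H →L[ℂ] H} (ha : a ∈ N) (hb : b ∈ N) (hw : w ∈ N) (h1 : ‖w ξ‖ ≤ K) :
    ‖(a * w * star b) ξ‖ ≤ ‖a‖ * ‖b‖ * K := by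
  calc ‖(a * w * star b) ξ‖ ≤ ‖star b‖ * ‖(a * w) ξ‖ :=
        h.norm_mul_right (mul_mem ha hw) (star_mem' N hb)
    _ ≤ ‖b‖ * (‖a‖ * K) := by
        rw [norm_star]
        refine mul_le_mul_of_nonneg_left ?_ (norm_nonneg _)
        exact (norm_mul_left ξ _ _).trans (mul_le_mul_of_nonneg_left h1 (norm_nonneg _))
    _ = ‖a‖ * ‖b‖ * K := by ring

omit [CompleteSpace H] in
/-- the double sum -/
theorem sum_bound {k : ℕ} {ξ : H} (T : Fin k → Fin k → (H →L[ℂ] H)) (c : Fin k → ℝ) (K : ℝ)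
    (h : ∀ i j, ‖T i j ξ‖ ≤ c i * c j * K) :
    ‖(∑ i, ∑ j, T i j) ξ‖ ≤ (∑ i, ∑ j, c i * c j) * K := by
  rw [_root_.sum_apply]
  refine (norm_sum_le _ _).trans ?_
  rw [Finset.sum_mul]
  refine Finset.sum_le_sum fun i _ => ?_
  rw [sum_apply]
  refine (norm_sum_le _ _).trans ?_
  rw [Finset.sum_mul]
  exact Finset.sum_le_sum fun j _ => h i j

/-- the norm of `Φ(w)` -/
theorem phi_norm {k : ℕ} (m : Fin k → (H →L[ℂ] H)) (w : H →L[ℂ] H) (K : ℝ) (hw : ‖w‖ ≤ K) :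
    ‖∑ a, m a * w * star (m a)‖ ≤ (∑ a, ‖m a‖ ^ 2) * K := by
  rw [Finset.sum_mul]
  refine (norm_sum_le _ _).trans (Finset.sum_le_sum fun a _ => ?_)
  calc ‖m a * w * star (m a)‖ ≤ ‖m a‖ * ‖w‖ * ‖star (m a)‖ :=
        (norm_mul_le _ _).trans (mul_le_mul_of_nonneg_right (norm_mul_le _ _) (norm_nonneg _))
    _ ≤ ‖m a‖ * K * ‖m a‖ := by
        rw [norm_star]
        gcongr
    _ = ‖m a‖ ^ 2 * K := by ring

/-- scaling -/
theorem scale {N : VonNeumannAlgebra H} {ξ : H} {ε' d C : ℝ} {F : Finset (H →L[ℂ] H)}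
    (hF : ∀ x ∈ N, ‖x‖ ≤ 1 → (∀ y ∈ F, ‖(x * y - y * x) ξ‖ < d) → ‖x ξ - tr ξ x • ξ‖ < ε')
    (hC : 1 ≤ C) {z : H →L[ℂ] H} (hz : z ∈ N) (h1 : ‖z‖ ≤ C)
    (h2 : ∀ a ∈ F, ‖(a * z - z * a) ξ‖ < d) : ‖z ξ - tr ξ z • ξ‖ < C * ε' := by
  have hC0 : 0 < C := by linarith
  have hcn : ‖((C⁻¹ : ℝ) : ℂ)‖ = C⁻¹ := by
    rw [Complex.norm_real, Real.norm_of_nonneg (by positivity)]
  have key := hF (((C⁻¹ : ℝ) : ℂ) • z) (smul_mem' N _ hz) ?_ ?_
  · have h7 : (((C⁻¹ : ℝ) : ℂ) • z) ξ - tr ξ (((C⁻¹ : ℝ) : ℂ) • z) • ξ =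
        ((C⁻¹ : ℝ) : ℂ) • (z ξ - tr ξ z • ξ) := by
      rw [tr_smul, smul_sub, smul_smul]
      rfl
    rw [h7, norm_smul, hcn] at key
    have h8 := mul_lt_mul_of_pos_left key hC0
    rwa [← mul_assoc, mul_inv_cancel₀ hC0.ne', one_mul] at h8
  · rw [norm_smul, hcn]
    calc C⁻¹ * ‖z‖ ≤ C⁻¹ * C := by gcongr
      _ = 1 := by field_simp
  · intro a ha
    have h9 : ((((C⁻¹ : ℝ) : ℂ) • z) * a - a * (((C⁻¹ : ℝ) : ℂ) • z)) =
        -(((C⁻¹ : ℝ) : ℂ) • (a * z - z * a)) := by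
      rw [smul_mul_assoc, mul_smul_comm, ← smul_sub, ← smul_neg, neg_sub]
    rw [h9, neg_apply, norm_neg, smul_apply, norm_smul, hcn]
    calc C⁻¹ * ‖(a * z - z * a) ξ‖ ≤ 1 * ‖(a * z - z * a) ξ‖ := by
          refine mul_le_mul_of_nonneg_right ?_ (norm_nonneg _)
          exact inv_le_one_of_one_le₀ hC
      _ < d := by
          rw [one_mul]
          exact h2 a ha

/-- the finite set of test elements -/
theorem exists_test {α : Type} {k : ℕ} (F : Finset α) (f : α → Fin k → Fin k → α) (s : α → α)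
    (P : Set α) (h : ∀ a ∈ F, ∀ i j, f a i j ∈ P) (hs : ∀ a ∈ P, s a ∈ P) :
    ∃ G : Finset α, (∀ g ∈ G, g ∈ P) ∧ ∀ a ∈ F, ∀ i j, f a i j ∈ G ∧ s (f a i j) ∈ G := by
  classical
  refine ⟨(F ×ˢ (Finset.univ : Finset (Fin k × Fin k))).image (fun x => f x.1 x.2.1 x.2.2) ∪
    (F ×ˢ (Finset.univ : Finset (Fin k × Fin k))).image (fun x => s (f x.1 x.2.1 x.2.2)), ?_, ?_⟩
  · intro g hg
    rw [Finset.mem_union, Finset.mem_image, Finset.mem_image] at hg
    rcases hg with ⟨x, hx, rfl⟩ | ⟨x, hx, rfl⟩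
    · exact h _ (Finset.mem_product.1 hx).1 _ _
    · exact hs _ (h _ (Finset.mem_product.1 hx).1 _ _)
  · intro a ha i j
    constructor
    · rw [Finset.mem_union, Finset.mem_image]
      exact Or.inl ⟨(a, i, j), Finset.mem_product.2 ⟨ha, Finset.mem_univ _⟩, rfl⟩
    · rw [Finset.mem_union, Finset.mem_image, Finset.mem_image]
      exact Or.inr ⟨(a, i, j), Finset.mem_product.2 ⟨ha, Finset.mem_univ _⟩, rfl⟩

theorem pf_WU (hCOM : T_COM H) : T_WU H := by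
  classical
  intro N ξ hN hUG P E k m hQ B ε hε
  have hS20 : 0 ≤ ∑ a, ‖m a‖ ^ 2 := Finset.sum_nonneg fun a _ => sq_nonneg _
  have hC21 : 1 ≤ (∑ a, ‖m a‖ ^ 2) * B ^ 2 + 1 := by
    have : 0 ≤ (∑ a, ‖m a‖ ^ 2) * B ^ 2 := by positivity
    linarith
  generalize hC2 : (∑ a, ‖m a‖ ^ 2) * B ^ 2 + 1 = C2 at hC21
  have hC20 : 0 < C2 := by linarith
  obtain ⟨F, hFN, d, hd, hF⟩ := hUG (ε / C2) (by positivity)
  have hS0 : 0 ≤ ∑ i : Fin k, ∑ j : Fin k, ‖m i‖ * ‖m j‖ :=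
    Finset.sum_nonneg fun i _ => Finset.sum_nonneg fun j _ => by positivity
  generalize hS : ∑ i : Fin k, ∑ j : Fin k, ‖m i‖ * ‖m j‖ = S at hS0
  obtain ⟨G0, hG0P, hG0m⟩ := exists_test F (fun a i j => E (star (m i) * a * m j)) star P
    (fun a ha i j => hQ.exp _ (mul_mem (mul_mem (star_mem' N (hQ.mem _)) (hFN a ha)) (hQ.mem _)))
    (fun a ha => hQ.star_mem a ha)
  refine ⟨G0, hG0P, d / (S * (2 * |B|) + 1), ?_, ?_⟩
  · positivity
  · intro x hx y hy hxB hyB hcom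
    have hB : 0 ≤ B := (norm_nonneg _).trans hxB
    rw [abs_of_nonneg hB] at hcom
    have hδ0 : 0 < d / (S * (2 * B) + 1) := by positivity
    have h6 : (S * (2 * B) + 1) * (d / (S * (2 * B) + 1)) = d := by field_simp
    generalize d / (S * (2 * B) + 1) = δ at hcom hδ0 h6
    have hwN : x * star y ∈ N := mul_mem hx (star_mem' N hy)
    have hwn : ‖x * star y‖ ≤ B ^ 2 := by
      calc ‖x * star y‖ ≤ ‖x‖ * ‖star y‖ := norm_mul_le _ _
        _ ≤ B * B := by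
            rw [norm_star]
            gcongr
        _ = B ^ 2 := by ring
    have hcw : ∀ g ∈ G0, star g ∈ G0 →
        ‖(g * (x * star y) - (x * star y) * g) ξ‖ ≤ 2 * B * δ := by
      intro g hg hg'
      exact comm_mul_star hN (hQ.sub g (hG0P g hg)) hx hy hxB hyB (hcom g hg).1.le
        (hcom (star g) hg').2.le
    have hcomz' := fun a (ha : a ∈ F) => hCOM N P E k m hQ a (hFN a ha) (x * star y) hwN
    clear hcom
    generalize x * star y = w at hwN hwn hcw hcomz' ⊢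
    have hzN : (∑ a, m a * w * star (m a)) ∈ N := sum_mem' N _ _ fun a _ =>
      mul_mem (mul_mem (hQ.mem a) hwN) (star_mem' N (hQ.mem a))
    have hzn : ‖∑ a, m a * w * star (m a)‖ ≤ C2 := by
      have := phi_norm m w (B ^ 2) hwn
      linarith
    have hfin := scale hF hC21 hzN hzn ?_
    · have : C2 * (ε / C2) = ε := by field_simp
      rwa [this] at hfin
    · intro a ha
      rw [hcomz' a ha]
      have h4 := sum_bound (ξ := ξ) (fun i j => m i * (E (star (m i) * a * m j) * w -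
        w * E (star (m i) * a * m j)) * star (m j)) (fun i => ‖m i‖) (2 * B * δ) ?_
      · rw [hS] at h4
        refine lt_of_le_of_lt h4 ?_
        nlinarith
      · intro i j
        exact term_bound hN (hQ.mem i) (hQ.mem j)
          (sub_mem (mul_mem (hQ.sub _ (hG0P _ (hG0m a ha i j).1)) hwN)
            (mul_mem hwN (hQ.sub _ (hG0P _ (hG0m a ha i j).1))))
          (hcw _ (hG0m a ha i j).1 (hG0m a ha i j).2)

end Pool.Agent.H5.BCG
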